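import Pool.Agent.Work.MP_214325_an.Example

open Polynomial Pool.Agent.Work.MP_214325_an
open scoped ContDiff

namespace Pool.Agent.Work.MP_214325_an.Parked.Counterexample

/-- A fourth order operator `L` with real-analytic, real, `b`-periodic coefficients whose multiplier
curve is `∏_j [r + 1/r - Δ(w_j(lam))] = 0` (even with multiplicities) for a monic quadratic `R` and
an entire `Δ`, but which is not `S(H)` for any monic quadratic `S` and any Hill operator `H`. -/
theorem result :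
    ∃ b : ℝ, 0 < b ∧ ∃ p : ℕ → ℝ → ℝ, (∀ k, ContDiff ℝ ω (p k) ∧ Function.Periodic (p k) b) ∧
      ∃ R : ℂ[X], R.Monic ∧ R.natDegree = 2 ∧ ∃ Δ : ℂ → ℂ, Differentiable ℂ Δ ∧
        (∀ lam : ℂ, (∃ u, IsFundSystem 4 (fun k x => (p k x : ℂ)) lam u) ∧
          ∀ u, IsFundSystem 4 (fun k x => (p k x : ℂ)) lam u → ∀ r : ℂ, r ≠ 0 →
            (r • (1 : Matrix (Fin 4) (Fin 4) ℂ) - floquet b u).det =
              r ^ 2 * ((R - C lam).roots.map fun w => r + r⁻¹ - Δ w).prod ∧
            ((r • (1 : Matrix (Fin 4) (Fin 4) ℂ) - floquet b u).det = 0 ↔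
              ((R - C lam).roots.map fun w => r + r⁻¹ - Δ w).prod = 0)) ∧
        ∀ S : ℂ[X], S.Monic → S.natDegree = 2 → ∀ q : ℝ → ℂ, ContDiff ℝ 2 q →
          ¬ ∀ u : ℝ → ℂ, ContDiff ℝ ∞ u →
            applyL 4 (fun k x => (p k x : ℂ)) u = polyHill S q u := by
  refine ⟨2 * Real.pi, by positivity, pR, fun k => ⟨contDiff_pR k, periodic_pR k⟩, X ^ 2 + X,
    by monicity!, by compute_degree!, disc, differentiable_disc, fun lam => ⟨(curve lam).1,
    fun u hu r hr => ?_⟩, fun S hS hS2 q hq => not_hill hS hS2 hq⟩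
  have h := (curve lam).2 u hu r hr
  exact ⟨h, by rw [h, mul_eq_zero, or_iff_right (pow_ne_zero 2 hr)]⟩

end Pool.Agent.Work.MP_214325_an.Parked.Counterexample
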