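import Pool.Agent.Work.MP_214325_an.SaC

open Polynomial Pool.Agent.Work.MP_214325_an
open scoped ContDiff

namespace Pool.Agent.Work.MP_214325_an.Parked.SelfAdjoint

/-- A formally self-adjoint fourth order operator `L` (real-analytic, real, `b`-periodic
coefficients with `p₁ = p₂'`) whose multiplier curve is `∏_j [r + 1/r - Δ(w_j(lam))] = 0` (even
with multiplicities) for a monic quadratic `R` and an entire `Δ`, but which is not `S(H)` for any
monic quadratic `S` and any Hill operator `H`. -/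
theorem result :
    ∃ b : ℝ, 0 < b ∧ ∃ p : ℕ → ℝ → ℝ, (∀ k, ContDiff ℝ ω (p k) ∧ Function.Periodic (p k) b) ∧
      p 1 = deriv (p 2) ∧
      ∃ R : ℂ[X], R.Monic ∧ R.natDegree = 2 ∧ ∃ Δ : ℂ → ℂ, Differentiable ℂ Δ ∧
        (∀ lam : ℂ, (∃ u, IsFundSystem 4 (fun k x => (p k x : ℂ)) lam u) ∧
          ∀ u, IsFundSystem 4 (fun k x => (p k x : ℂ)) lam u → ∀ r : ℂ, r ≠ 0 →
            (r • (1 : Matrix (Fin 4) (Fin 4) ℂ) - floquet b u).det =
              r ^ 2 * ((R - C lam).roots.map fun w => r + r⁻¹ - Δ w).prod ∧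
            ((r • (1 : Matrix (Fin 4) (Fin 4) ℂ) - floquet b u).det = 0 ↔
              ((R - C lam).roots.map fun w => r + r⁻¹ - Δ w).prod = 0)) ∧
        ∀ S : ℂ[X], S.Monic → S.natDegree = 2 → ∀ q : ℝ → ℂ, ContDiff ℝ 2 q →
          ¬ ∀ u : ℝ → ℂ, ContDiff ℝ ∞ u →
            applyL 4 (fun k x => (p k x : ℂ)) u = polyHill S q u := by
  refine ⟨2 * Real.pi, by positivity, Sa.pR, fun k => ⟨Sa.contDiff_pR k, Sa.periodic_pR k⟩,
    Sa.sym_pR, X ^ 2 + C (7 / 32) * X, by monicity!, by compute_degree!, disc, differentiable_disc,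
    fun lam => ⟨(Sa.curve lam).1, fun u hu r hr => ?_⟩,
    fun S hS hS2 q hq => Sa.not_hill hS hS2 hq⟩
  have h := (Sa.curve lam).2 u hu r hr
  exact ⟨h, by rw [h, mul_eq_zero, or_iff_right (pow_ne_zero 2 hr)]⟩

end Pool.Agent.Work.MP_214325_an.Parked.SelfAdjoint
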